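import Pool.Agent.W2helper1.LT.Stm2
import Pool.Agent.Helper717.LT.P_H_approx

/-!
# MP_cfe56d_mp : piece LT-6, strong approximation in `H¹`
-/

set_option autoImplicit false

open MeasureTheory Set Filter Topology Real
open scoped Matrix Convolution

namespace Pool.Agent.W2helper12.LT

open LTd Pool.Agent.W2helper1.LT

/-- a.e. convergence and convergence of the norms imply strong convergence -/
theorem strong {X : Type*} [MeasurableSpace X] {μ : Measure X} {ι : Type*} [Fintype ι]
    (h : ℕ → ι → X → ℝ) (H : ι → X → ℝ) (hm : ∀ k i, MemLp (h k i) 2 μ)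
    (Hm : ∀ i, MemLp (H i) 2 μ)
    (hae : ∀ᵐ x ∂μ, ∀ i, Tendsto (fun k => h k i x) atTop (𝓝 (H i x))) (ε : ℕ → ℝ)
    (hε : Tendsto ε atTop (𝓝 0))
    (hle : ∀ k, ∫ x, ∑ i, h k i x ^ 2 ∂μ ≤ (∫ x, ∑ i, H i x ^ 2 ∂μ) + ε k) (i : ι) :
    Tendsto (fun k => ∫ x, (h k i x - H i x) ^ 2 ∂μ) atTop (𝓝 0) := by
  obtain ⟨a, ha⟩ : ∃ a : ℕ → X → ℝ, a = fun k x => ∑ i, h k i x ^ 2 := ⟨_, rfl⟩
  obtain ⟨b, hb⟩ : ∃ b : X → ℝ, b = fun x => ∑ i, H i x ^ 2 := ⟨_, rfl⟩
  obtain ⟨c, hc⟩ : ∃ c : ℕ → X → ℝ, c = fun k x => ∑ i, (h k i x - H i x) ^ 2 := ⟨_, rfl⟩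
  have ha0 : ∀ k x, 0 ≤ a k x := fun k x => by
    rw [ha]
    exact Finset.sum_nonneg fun _ _ => sq_nonneg _
  have hb0 : ∀ x, 0 ≤ b x := fun x => by
    rw [hb]
    exact Finset.sum_nonneg fun _ _ => sq_nonneg _
  have hc0 : ∀ k x, 0 ≤ c k x := fun k x => by
    rw [hc]
    exact Finset.sum_nonneg fun _ _ => sq_nonneg _
  have hcab : ∀ k x, c k x ≤ 2 * a k x + 2 * b x := fun k x => by
    rw [ha, hb, hc]
    simp only
    rw [Finset.mul_sum, Finset.mul_sum, ← Finset.sum_add_distrib]
    refine Finset.sum_le_sum fun i _ => ?_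
    nlinarith [sq_nonneg (h k i x + H i x)]
  have hai : ∀ k, Integrable (a k) μ := fun k => by
    rw [ha]
    exact integrable_finsetSum _ fun i _ => (hm k i).integrable_sq
  have hbi : Integrable b μ := by
    rw [hb]
    exact integrable_finsetSum _ fun i _ => (Hm i).integrable_sq
  have hci : ∀ k, Integrable (c k) μ := fun k => by
    rw [hc]
    exact integrable_finsetSum _ fun i _ => ((hm k i).sub (Hm i)).integrable_sq
  have haT : ∀ᵐ x ∂μ, Tendsto (fun k => a k x) atTop (𝓝 (b x)) := by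
    filter_upwards [hae] with x hx
    rw [ha, hb]
    exact tendsto_finsetSum _ fun i _ => (hx i).pow 2
  have hcT : ∀ᵐ x ∂μ, Tendsto (fun k => c k x) atTop (𝓝 0) := by
    filter_upwards [hae] with x hx
    rw [hc]
    have h1 : Tendsto (fun k => ∑ i, (h k i x - H i x) ^ 2) atTop
        (𝓝 (∑ i : ι, (H i x - H i x) ^ 2)) :=
      tendsto_finsetSum _ fun i _ => ((hx i).sub_const _).pow 2
    simpa using h1
  have i1 : ∀ k, Integrable (fun x => max (b x - a k x) 0) μ :=
    fun k => (hbi.sub (hai k)).pos_part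
  have i2 : ∀ k, Integrable (fun x => max (a k x - b x) 0) μ :=
    fun k => ((hai k).sub hbi).pos_part
  have i3 : ∀ k, Integrable (fun x => a k x - b x) μ := fun k => (hai k).sub hbi
  have i4 : ∀ k, Integrable (fun x => max (c k x - 2 * max (a k x - b x) 0) 0) μ :=
    fun k => ((hci k).sub ((i2 k).const_mul 2)).pos_part
  -- Scheffé
  have h1 : Tendsto (fun k => ∫ x, max (b x - a k x) 0 ∂μ) atTop (𝓝 (∫ _, (0 : ℝ) ∂μ)) := by
    refine tendsto_integral_of_dominated_convergence b
      (fun k => (i1 k).aestronglyMeasurable) hbi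
      (fun k => Eventually.of_forall fun x => ?_) ?_
    · rw [Real.norm_of_nonneg (le_max_right _ _)]
      exact max_le (by linarith [ha0 k x]) (hb0 x)
    · filter_upwards [haT] with x hx
      have := (((tendsto_const_nhds (x := b x)).sub hx).max (tendsto_const_nhds (x := (0 : ℝ))))
      simpa using this
  rw [integral_zero] at h1
  have h2 : ∀ k, ∫ x, max (a k x - b x) 0 ∂μ ≤ ε k + ∫ x, max (b x - a k x) 0 ∂μ := by
    intro k
    have e1 : ∀ x, max (a k x - b x) 0 = (a k x - b x) + max (b x - a k x) 0 := by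
      intro x
      rcases le_total (a k x) (b x) with h | h
      · rw [max_eq_right (by linarith), max_eq_left (by linarith)]
        ring
      · rw [max_eq_left (by linarith), max_eq_right (by linarith)]
        ring
    simp only [e1]
    rw [integral_add (i3 k) (i1 k), integral_sub (hai k) hbi]
    have := hle k
    rw [ha, hb]
    linarith
  have h3 : Tendsto (fun k => ∫ x, max (c k x - 2 * max (a k x - b x) 0) 0 ∂μ) atTop
      (𝓝 (∫ _, (0 : ℝ) ∂μ)) := by
    refine tendsto_integral_of_dominated_convergence (fun x => 4 * b x)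
      (fun k => (i4 k).aestronglyMeasurable)
      (hbi.const_mul 4) (fun k => Eventually.of_forall fun x => ?_) ?_
    · rw [Real.norm_of_nonneg (le_max_right _ _)]
      refine max_le ?_ (by linarith [hb0 x])
      have e1 := hcab k x
      have e2 := le_max_left (a k x - b x) 0
      linarith
    · filter_upwards [haT, hcT] with x hx hx'
      have e1 := ((hx.sub_const (b x)).max (tendsto_const_nhds (x := (0 : ℝ)))).const_mul 2
      have e2 := (hx'.sub e1).max (tendsto_const_nhds (x := (0 : ℝ)))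
      simpa using e2
  rw [integral_zero] at h3
  have h4 : ∀ k, ∫ x, c k x ∂μ ≤ (∫ x, max (c k x - 2 * max (a k x - b x) 0) 0 ∂μ) +
      2 * (ε k + ∫ x, max (b x - a k x) 0 ∂μ) := by
    intro k
    have e1 : ∫ x, c k x ∂μ ≤ ∫ x, (max (c k x - 2 * max (a k x - b x) 0) 0 +
        2 * max (a k x - b x) 0) ∂μ := by
      refine integral_mono (hci k) ?_ fun x => ?_
      · exact (i4 k).add ((i2 k).const_mul 2)
      · have := le_max_left (c k x - 2 * max (a k x - b x) 0) 0
        show c k x ≤ _ + _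
        linarith
    rw [integral_add (i4 k) ((i2 k).const_mul 2), integral_const_mul] at e1
    linarith [h2 k]
  have h5 : Tendsto (fun k => ∫ x, c k x ∂μ) atTop (𝓝 0) := by
    refine squeeze_zero (fun k => integral_nonneg (hc0 k)) h4 ?_
    have := h3.add ((hε.add h1).const_mul 2)
    simpa using this
  refine squeeze_zero (fun k => integral_nonneg fun x => sq_nonneg _) (fun k => ?_) h5
  refine integral_mono ((hm k i).sub (Hm i)).integrable_sq (hci k) fun x => ?_
  rw [hc]
  exact Finset.single_le_sum (f := fun i => (h k i x - H i x) ^ 2) (fun _ _ => sq_nonneg _)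
    (Finset.mem_univ i)

theorem memLp_C1 {d : ℕ} {F : (Fin d → ℝ) → ℝ} (hF : ContDiff ℝ 1 F) (hs : HasCompactSupport F)
    (j : Fin d) : MemLp (pd j F) 2 volume := by
  have h1 : Continuous (pd j F) := by
    unfold pd
    exact (hF.continuous_fderiv (by norm_num)).clm_apply continuous_const
  have h2 : HasCompactSupport (pd j F) := by
    unfold pd
    exact (hs.fderiv ℝ).comp_left (g := fun L : (Fin d → ℝ) →L[ℝ] ℝ => L (Pi.single j 1)) rfl
  exact h1.memLp_of_hasCompactSupport h2

theorem approx2 : Approx2 := by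
  intro d n f g hf
  obtain ⟨φ, hφ⟩ := conv_ae (d := d)
  obtain ⟨F0, hF0⟩ : ∃ F0 : ℕ → Fin n → (Fin d → ℝ) → ℝ, F0 = fun k i =>
    ((φ k).normed volume ⋆[ContinuousLinearMap.lsmul ℝ ℝ, volume] (f i)) := ⟨_, rfl⟩
  have hF0d : ∀ k i, ContDiff ℝ 1 (F0 k i) := by
    intro k i
    rw [hF0]
    exact (conv_diff (φ k) (hf i)).1
  have hpd : ∀ k i j x, pd j (F0 k i) x =
      ((φ k).normed volume ⋆[ContinuousLinearMap.lsmul ℝ ℝ, volume] (g i j)) x := by
    intro k i j x
    rw [hF0]
    exact (conv_diff (φ k) (hf i)).2 j x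
  have hI2 : ∀ k i, Integrable fun x => F0 k i x ^ 2 := by
    intro k i
    rw [hF0]
    exact (conv_L2 (φ k) (hf i).f2).2.1
  have hI3 : ∀ k j i, Integrable fun x => pd j (F0 k i) x ^ 2 := by
    intro k j i
    simp only [hpd]
    exact (conv_L2 (φ k) ((hf i).g2 j)).2.1
  have hcut := fun k : ℕ => cut_energy (F0 k) (hF0d k) (hI2 k) (hI3 k)
    (ε := 1 / ((k:ℝ) + 1)) (by positivity) (k:ℝ)
  choose χ hχ1 hχ2 hχ3 hχ4 hχ5 using hcut
  have c1 : ∀ k i, ContDiff ℝ 1 fun y => χ k y * F0 k i y := fun k i => (hχ1 k).mul (hF0d k i)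
  have c2 : ∀ k i, HasCompactSupport fun y => χ k y * F0 k i y := fun k i => (hχ2 k).mul_right
  have c3 : ∀ k (v : Fin n → ℝ), ∫ x, (∑ i, v i * (χ k x * F0 k i x)) ^ 2 ≤
      ∫ x, (∑ i, v i * f i x) ^ 2 := by
    intro k v
    have hsum2 : MemLp (fun y => ∑ i, v i * f i y) 2 volume :=
      memLp_finsetSum _ (fun i _ => (hf i).f2.const_mul (v i))
    have hconv := conv_L2 (φ k) hsum2
    have heq : ∀ x, ((φ k).normed volume ⋆[ContinuousLinearMap.lsmul ℝ ℝ, volume]
        fun y => ∑ i, v i * f i y) x = ∑ i, v i * F0 k i x := by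
      intro x
      rw [hF0]
      exact conv_sum (φ k) f (fun i => (hf i).f2) v x
    have hint := hconv.2.1
    have hle := hconv.2.2
    simp only [heq] at hint hle
    refine le_trans ?_ hle
    apply integral_mono_of_nonneg
    · exact Eventually.of_forall fun x => sq_nonneg _
    · exact hint
    · refine Eventually.of_forall fun x => ?_
      simp only
      have e : ∑ i, v i * (χ k x * F0 k i x) = χ k x * ∑ i, v i * F0 k i x := by
        rw [Finset.mul_sum]
        exact Finset.sum_congr rfl fun i _ => by ring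
      rw [e, mul_pow]
      have h1 : χ k x ^ 2 ≤ 1 := pow_le_one₀ (hχ3 k x).1 (hχ3 k x).2
      exact mul_le_of_le_one_left (sq_nonneg _) h1
  have c4 : ∀ᵐ x, ∀ i, Tendsto (fun k => χ k x * F0 k i x) atTop (𝓝 (f i x)) := by
    have hall : ∀ᵐ x, ∀ i, Tendsto (fun k => F0 k i x) atTop (𝓝 (f i x)) := by
      rw [ae_all_iff]
      intro i
      rw [hF0]
      exact hφ (f i) (hf i).f2
    filter_upwards [hall] with x hx i
    refine (hx i).congr' ?_
    obtain ⟨N, hN⟩ := exists_nat_ge ‖x‖
    filter_upwards [eventually_ge_atTop N] with k hk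
    have hk' : ‖x‖ ≤ (k:ℝ) := le_trans hN (by exact_mod_cast hk)
    rw [hχ4 k x hk', one_mul]
  have c5 : ∀ᵐ x, ∀ q : Fin d × Fin n,
      Tendsto (fun k => pd q.1 (fun y => χ k y * F0 k q.2 y) x) atTop (𝓝 (g q.2 q.1 x)) := by
    have hall : ∀ᵐ x, ∀ q : Fin d × Fin n,
        Tendsto (fun k => pd q.1 (F0 k q.2) x) atTop (𝓝 (g q.2 q.1 x)) := by
      rw [ae_all_iff]
      intro q
      simp only [hpd]
      exact hφ _ ((hf q.2).g2 q.1)
    filter_upwards [hall] with x hx q
    refine (hx q).congr' ?_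
    obtain ⟨N, hN⟩ := exists_nat_gt ‖x‖
    filter_upwards [eventually_ge_atTop N] with k hk
    have hk' : ‖x‖ < (k:ℝ) := lt_of_lt_of_le hN (by exact_mod_cast hk)
    unfold pd
    congr 1
    apply Filter.EventuallyEq.fderiv_eq
    have h1 : ∀ᶠ y in 𝓝 x, ‖y‖ < (k : ℝ) := continuous_norm.continuousAt.eventually (gt_mem_nhds hk')
    filter_upwards [h1] with y hy
    rw [hχ4 k y hy.le, one_mul]
  have c6 : ∀ k : ℕ, ∫ x, ∑ j, ∑ i, pd j (fun y => χ k y * F0 k i y) x ^ 2 ≤
      (∫ x, ∑ j, ∑ i, g i j x ^ 2) + 1 / ((k:ℝ) + 1) := by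
    intro k
    refine le_trans (hχ5 k) ?_
    refine add_le_add ?_ le_rfl
    have hIg : ∀ j i, Integrable fun x => g i j x ^ 2 := fun j i => ((hf i).g2 j).integrable_sq
    rw [integral_finsetSum _ (fun j _ => integrable_finsetSum _ (fun i _ => hI3 k j i)),
      integral_finsetSum _ (fun j _ => integrable_finsetSum _ (fun i _ => hIg j i))]
    refine Finset.sum_le_sum fun j _ => ?_
    rw [integral_finsetSum _ (fun i _ => hI3 k j i), integral_finsetSum _ (fun i _ => hIg j i)]
    refine Finset.sum_le_sum fun i _ => ?_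
    simp only [hpd]
    exact (conv_L2 (φ k) ((hf i).g2 j)).2.2
  refine ⟨fun k i y => χ k y * F0 k i y, c1, c2, c3, c4, ?_, ?_⟩
  · intro i
    have hlp : ∀ k, MemLp (fun y => χ k y * F0 k i y) 2 volume := fun k =>
      (c1 k i).continuous.memLp_of_hasCompactSupport (c2 k i)
    refine strong (ι := Unit) (fun k _ y => χ k y * F0 k i y) (fun _ => f i) (fun k _ => hlp k)
      (fun _ => (hf i).f2) ?_ (fun _ => 0) tendsto_const_nhds (fun k => ?_) ()
    · filter_upwards [c4] with x hx _
      exact hx i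
    · have := c3 k (Pi.single i 1)
      have e : ∀ u : Fin n → ℝ, ∑ i', (Pi.single i (1 : ℝ) : Fin n → ℝ) i' * u i' = u i := by
        intro u
        rw [Finset.sum_eq_single i]
        · rw [Pi.single_eq_same, one_mul]
        · intro b _ hb
          rw [Pi.single_eq_of_ne hb, zero_mul]
        · intro h
          exact absurd (Finset.mem_univ _) h
      simp only [e] at this
      simpa using this
  · intro j i
    refine strong (ι := Fin d × Fin n) (fun k q => pd q.1 (fun y => χ k y * F0 k q.2 y))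
      (fun q => g q.2 q.1) (fun k q => memLp_C1 (c1 k q.2) (c2 k q.2) q.1)
      (fun q => (hf q.2).g2 q.1) c5 (fun k => 1 / ((k : ℝ) + 1))
      tendsto_one_div_add_atTop_nhds_zero_nat (fun k => ?_) (j, i)
    have := c6 k
    simp only [Fintype.sum_prod_type]
    exact this

end Pool.Agent.W2helper12.LT
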